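import Mathlib
import Pool.Agent.Results.MP_83c24b_al.Connected
import Pool.Agent.Y28.SA.Lam
import Pool.Agent.Y28.SA.R7

set_option autoImplicit false

/-!
For every algebraically closed field `K` of characteristic zero which is not algebraic over `ℚ` there
are infinitely many connected linear algebraic groups in `GL_29(K)`, directly indecomposable and with
trivial centres, which are all isomorphic as abstract groups and no two of which are related by a
semialgebraic isomorphism.

Let `R = K[ε, δ]/(ε³, δ³, (ε+δ)³, (ε,δ)⁴)`, let `c ∈ K` be transcendental and `l_s = c + ε + s δ` for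
`s = 3, 4, 5, …`. The groups are the groups of affine maps `r ↦ u r + b` of the algebras
`R⟨x, y⟩/(x², y², xy - l_s yx)` of dimension `28`.
-/

namespace Pool.Agent.Results.MP_83c24b_al.InfinitelyMany

open Pool.Agent.Results.MP_83c24b_al.Connected Pool.Agent.Y28.SA

universe u

section

variable {K : Type u} [Field K]

/-- The index set of the basis. -/
def idx : Fin 28 ≃ Fin 4 × Fin 7 := (finProdFinEquiv : Fin 4 × Fin 7 ≃ Fin (4 * 7)).symm

/-- Coordinates on the algebra. -/
noncomputable def coord (l : R7 K) : LamR (R7 K) l ≃ₗ[K] (Fin 28 → K) :=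
  ((LamR.toPi K l).trans (LinearEquiv.piCongrRight fun _ : Fin 4 => R7.toPi (K := K))).trans
    ((LinearEquiv.curry K K (Fin 4) (Fin 7)).symm.trans
      (LinearEquiv.funCongrLeft K K idx))

/-- The basis. -/
noncomputable def bas (l : R7 K) : Module.Basis (Fin 28) K (LamR (R7 K) l) :=
  Module.Basis.ofEquivFun (coord l)

lemma coord_apply (l : R7 K) (s : LamR (R7 K) l) (i : Fin 28) :
    coord l s i = R7.toPi (LamR.toPi K l s (idx i).1) (idx i).2 := rfl

lemma bas_repr (l : R7 K) (s : LamR (R7 K) l) (i : Fin 28) :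
    (bas l).repr s i = coord l s i := by
  simp [bas]

lemma bas_zero (l : R7 K) (s : LamR (R7 K) l) : (bas l).repr s 0 = s.p.c0 := by
  rw [bas_repr, coord_apply]
  rfl

lemma isUnit_lam (l : R7 K) (s : LamR (R7 K) l) : IsUnit s ↔ s.p.c0 ≠ 0 := by
  rw [LamR.isUnit_iff, R7.isUnit_iff]

lemma closed (l : R7 K) : IsZariskiClosed (rho (bas l)).range := by
  apply closed_range
  intro a ha
  rw [isUnit_lam]
  intro h0
  let w : LamR (R7 K) l := ⟨0, 0, 0, ⟨0, 0, 0, 0, 0, 0, 1⟩⟩
  have h1 : a * w = 0 := by
    ext <;> simp [w, h0]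
  have h2 := Algebra.leftMulMatrix_mulVec_repr (bas l) a w
  rw [h1, map_zero] at h2
  obtain ⟨v, hv⟩ := ha
  have h3 : ((bas l).repr w : Fin 28 → K) = 0 := by
    have h4 : ((v⁻¹ : (Matrix (Fin 28) (Fin 28) K)ˣ) : Matrix (Fin 28) (Fin 28) K).mulVec
        ((Algebra.leftMulMatrix (bas l) a).mulVec ((bas l).repr w : Fin 28 → K)) = 0 := by
      rw [h2]
      simp
    rw [← hv, Matrix.mulVec_mulVec, Units.inv_mul, Matrix.one_mulVec] at h4
    exact h4
  have h5 : (bas l).repr w = 0 := by
    ext i
    exact congrFun h3 i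
  have h6 : w = 0 := (bas l).repr.injective (by rw [h5, map_zero])
  have h7 := congrArg (fun s : LamR (R7 K) l => s.z.c6) h6
  simp [w] at h7

lemma irred [Infinite K] (l : R7 K) : IsIrred (rho (bas l)).range := by
  refine irred_range _ (MvPolynomial.X 0) (MvPolynomial.X_ne_zero 0) ?_
  intro u hu
  rw [MvPolynomial.eval_X, bas_zero] at hu
  exact (isUnit_lam l u).2 hu

variable [CharZero K]

omit [CharZero K] in
lemma unit_sub (c : K) (hc : c ≠ 1) (s : ℕ) : IsUnit (1 - R7.par c s) := by
  rw [R7.isUnit_iff, sub_eq_add_neg, R7.add_c0, R7.neg_c0, R7.one_c0]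
  intro h
  apply hc
  have h1 : (R7.par c s).c0 = c := rfl
  rw [h1] at h
  linear_combination -h

omit [CharZero K] in
lemma unit_add (c : K) (hc : c ≠ -1) (s : ℕ) : IsUnit (1 + R7.par c s) := by
  rw [R7.isUnit_iff, R7.add_c0, R7.one_c0]
  intro h
  apply hc
  have h1 : (R7.par c s).c0 = c := rfl
  rw [h1] at h
  linear_combination h

/-- All the algebras are isomorphic as rings. -/
lemma exists_iso (c : K) (hc : Transcendental ℚ c) (s : ℕ) :
    Nonempty (LamR (R7 K) (algebraMap K (R7 K) c) ≃+* LamR (R7 K) (R7.par c s)) := by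
  obtain ⟨τ, h1, h2⟩ := R7.exists_lift K c hc ⟨0, 1, s, 0, 0, 0, 0⟩ rfl
  refine ⟨LamR.twist (R7.twEquiv τ h1) ?_⟩
  rw [R7.twEquiv_ofK, h2, R7.algebraMap_def]
  ext <;> simp [R7.par]

end

/-- Over `K` there are infinitely many connected linear algebraic groups (Zariski closed irreducible
subgroups `G 0, G 1, …` of `GL_29(K)`) with trivial centres, directly indecomposable even as abstract
groups, which are all isomorphic as abstract groups, and such that for `i ≠ j` no isomorphism
`G i ≃ G j` is semialgebraic. -/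
def InfiniteFamily (K : Type u) [Field K] : Prop :=
  ∃ G : ℕ → Subgroup (GL (Fin 28 ⊕ Unit) K),
    (∀ i, IsZariskiClosed (G i) ∧ IsIrred (G i) ∧ Subgroup.center (G i) = ⊥ ∧
      IsIndecomposable (G i)) ∧
    (∀ i j, Nonempty (G i ≃* G j)) ∧
    (∀ i j, i ≠ j → ¬ ∃ φ : G i ≃* G j, IsSemialgebraic φ)

theorem family_of_transcendental (K : Type u) [Field K] [CharZero K] (c : K)
    (hc : Transcendental ℚ c) : InfiniteFamily K := by
  have hc0 : c ≠ 0 := by
    rintro rfl
    exact hc (isAlgebraic_zero)
  have hc1 : c ≠ 1 := by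
    rintro rfl
    exact hc (isAlgebraic_one)
  have hc2 : c ≠ -1 := by
    rintro rfl
    exact hc (isAlgebraic_one.neg)
  have L : ∀ i : ℕ, Loc (LamR (R7 K) (R7.par c (i + 3))) := fun i => LamR.loc R7.isUnit_two
  refine ⟨fun i => (rho (bas (R7.par c (i + 3)))).range, ?_, ?_, ?_⟩
  · intro i
    refine ⟨closed _, irred _, center_eq_bot_of_equiv (rhoEquiv (bas (R7.par c (i + 3))))
      (L i).toGood.center_eq_bot, ?_⟩
    intro A B _ _ ⟨e⟩
    exact (L i).toGood.indecomposable ((rhoEquiv (bas (R7.par c (i + 3)))).trans e)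
  · intro i j
    obtain ⟨ei⟩ := exists_iso c hc (i + 3)
    obtain ⟨ej⟩ := exists_iso c hc (j + 3)
    exact ⟨((rhoEquiv (bas (R7.par c (i + 3)))).symm.trans (affCongr (ei.symm.trans ej))).trans
      (rhoEquiv (bas (R7.par c (j + 3))))⟩
  · rintro i j hij ⟨φ, hφ⟩
    obtain ⟨θ, σ, hθ⟩ := ringEquiv_of_semialgebraic _ _ (L i) (L j) φ hφ
    have u1 := unit_sub c hc1 (i + 3)
    have u2 := unit_sub c hc1 (j + 3)
    have u3 := unit_add c hc2 (j + 3)
    have h1 := LamR.psi_l u1 u2 u3 θ
    have h2 : ∀ k, LamR.psi u1 u2 θ (algebraMap K _ k) = algebraMap K _ (σ k) := by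
      intro k
      rw [LamR.psi_apply, ← LamR.algebraMap_def, hθ, LamR.algebraMap_def, LamR.inc_p]
    have h3 := R7.rigid c hc0 (i + 3) (j + 3) (by omega) (by omega) (LamR.psi u1 u2 θ) σ h2 h1
    omega

/-- **Main result.** Over every algebraically closed field of characteristic zero which is not
algebraic over `ℚ`, and in particular over `ℂ`, one abstract group carries infinitely many
structures of a connected linear algebraic group (directly indecomposable, with trivial centre), no
two of which are related by a semialgebraic isomorphism. -/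
theorem result :
    (∀ (K : Type u) [Field K] [IsAlgClosed K] [CharZero K], ¬ Algebra.IsAlgebraic ℚ K →
      InfiniteFamily K) ∧ InfiniteFamily ℂ := by
  have key : ∀ (K : Type u) [Field K] [CharZero K], ¬ Algebra.IsAlgebraic ℚ K →
      InfiniteFamily K := by
    intro K _ _ hK
    have h1 : ∃ c : K, Transcendental ℚ c := by
      by_contra h
      push Not at h
      exact hK ⟨fun c => by
        have := h c
        rwa [Transcendental, not_not] at this⟩
    obtain ⟨c, hc⟩ := h1
    exact family_of_transcendental K c hc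
  refine ⟨fun K _ _ _ hK => key K hK, ?_⟩
  have h1 : ∃ c : ℂ, Transcendental ℚ c := by
    by_contra h
    push Not at h
    exact not_algebraic_complex ⟨fun c => by
      have := h c
      rwa [Transcendental, not_not] at this⟩
  obtain ⟨c, hc⟩ := h1
  exact family_of_transcendental ℂ c hc

end Pool.Agent.Results.MP_83c24b_al.InfinitelyMany
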